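import Mathlib

namespace Pool.Agent.Results.MP_165cab_nt.Three

open Finset Filter Topology

/-- Number of entries in rows `0, …, n-1` of Pascal's triangle not divisible by `p`. -/
def fp (p n : ℕ) : ℕ := #{x ∈ range n ×ˢ range n | x.2 ≤ x.1 ∧ ¬ p ∣ x.1.choose x.2}

noncomputable def theta (p : ℕ) : ℝ := Real.log (p * (p + 1) / 2) / Real.log p

noncomputable def lam (p : ℕ) : ℝ := liminf (fun n : ℕ => (fp p n : ℝ) * (n : ℝ) ^ (-theta p)) atTop

def gp (p k : ℕ) : ℕ := #{j ∈ range (k + 1) | ¬ p ∣ k.choose j}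

theorem fp_eq (p n : ℕ) : fp p n = ∑ k ∈ range n, gp p k := by
  unfold fp gp
  rw [card_filter, sum_product]
  refine sum_congr rfl fun k hk => ?_
  rw [← card_filter]
  congr 1
  ext j
  have := mem_range.1 hk
  simp only [mem_filter, mem_range]
  constructor <;> rintro ⟨a, b⟩
  · exact ⟨by omega, b.2⟩
  · exact ⟨by omega, by omega, b⟩

variable {p : ℕ} [hp : Fact p.Prime]

theorem g_rec (m r : ℕ) (hr : r < p) : gp p (p * m + r) = (r + 1) * gp p m := by
  have h0 := hp.out.pos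
  have K : ∀ j, ¬ p ∣ (p * m + r).choose j ↔ j % p ≤ r ∧ ¬ p ∣ m.choose (j / p) := by
    intro j
    have := Choose.choose_modEq_choose_mod_mul_choose_div_nat (n := p * m + r) (k := j) (p := p)
    rw [Nat.mul_add_mod, Nat.mod_eq_of_lt hr, Nat.mul_add_div h0, Nat.div_eq_of_lt hr,
      add_zero] at this
    rw [this.dvd_iff dvd_rfl, hp.out.dvd_mul, not_or]
    refine and_congr_left fun _ => ⟨fun h => ?_, fun h h' => ?_⟩
    · by_contra c
      exact h (by rw [Nat.choose_eq_zero_of_lt (by omega)]; simp)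
    · have := (Nat.choose_mul_factorial_mul_factorial h) ▸ (h'.mul_right _).mul_right (r - j % p).factorial
      have := hp.out.dvd_factorial.1 this
      omega
  unfold gp
  rw [← card_range (r + 1), ← card_product]
  refine card_bij (fun j _ => (j % p, j / p)) (fun j hj => ?_) (fun a _ b _ e => ?_)
    (fun x hx => ?_)
  · simp only [mem_filter, mem_range, mem_product, K] at hj ⊢
    refine ⟨by omega, ?_, hj.2.2⟩
    by_contra c
    exact hj.2.2 (by rw [Nat.choose_eq_zero_of_lt (by omega)]; simp)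
  · simp only [Prod.mk.injEq] at e
    rw [← Nat.div_add_mod a p, ← Nat.div_add_mod b p, e.1, e.2]
  · simp only [mem_filter, mem_range, mem_product] at hx
    have a : (p * x.2 + x.1) % p = x.1 := by rw [Nat.mul_add_mod, Nat.mod_eq_of_lt (by omega)]
    have b : (p * x.2 + x.1) / p = x.2 := by
      rw [Nat.mul_add_div h0, Nat.div_eq_of_lt (by omega), add_zero]
    refine ⟨p * x.2 + x.1, ?_, by rw [a, b]⟩
    simp only [mem_filter, mem_range, K, a, b]
    have := Nat.mul_le_mul_left p (show x.2 ≤ m by omega)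
    exact ⟨by omega, by omega, hx.2.2⟩

theorem g0 : gp p 0 = 1 := by simp [gp, hp.out.ne_one, filter_singleton]

theorem g_mul (m k : ℕ) : ∀ j < p ^ k, gp p (m * p ^ k + j) = gp p m * gp p j := by
  have h0 := hp.out.pos
  induction k with
  | zero => intro j hj; have : j = 0 := by simpa using hj
            simp [this, g0]
  | succ k ih =>
    intro j hj
    have e : m * p ^ (k + 1) + j = p * (m * p ^ k + j / p) + j % p := by
      have := Nat.div_add_mod j p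
      rw [pow_succ]; nlinarith
    rw [e, g_rec _ _ (Nat.mod_lt _ h0), ih _ (Nat.div_lt_of_lt_mul (by rwa [pow_succ'] at hj))]
    conv_rhs => rw [← Nat.div_add_mod j p, g_rec _ _ (Nat.mod_lt _ h0)]
    ring

theorem f_add (m k j : ℕ) (hj : j ≤ p ^ k) :
    fp p (m * p ^ k + j) = fp p (m * p ^ k) + gp p m * fp p j := by
  simp only [fp_eq]
  rw [sum_range_add, mul_sum]
  congr 1
  exact sum_congr rfl fun i hi => g_mul m k i (by have := mem_range.1 hi; omega)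

theorem f_mul (m k : ℕ) : fp p (m * p ^ k) = fp p m * fp p (p ^ k) := by
  induction m with
  | zero => simp [fp]
  | succ m ih =>
    rw [add_mul, one_mul, f_add _ _ _ le_rfl, ih, fp_eq p (m + 1), sum_range_succ, ← fp_eq]
    ring

theorem g_small (r : ℕ) (hr : r < p) : gp p r = r + 1 := by
  simpa [g0] using g_rec (p := p) 0 r hr

theorem f_small (r : ℕ) (hr : r ≤ p) : 2 * fp p r = r * (r + 1) := by
  induction r with
  | zero => simp [fp]
  | succ r ih =>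
    rw [fp_eq, sum_range_succ, ← fp_eq, mul_add, ih (by omega), g_small r (by omega)]; ring

theorem f_pow (k : ℕ) : fp p (p ^ k) = fp p p ^ k := by
  induction k with
  | zero => simp [fp_eq, g0]
  | succ k ih => rw [pow_succ', f_mul, ih, pow_succ']

theorem f_split (m k j : ℕ) (hj : j ≤ p ^ k) :
    fp p (m * p ^ k + j) = fp p m * fp p p ^ k + gp p m * fp p j := by
  rw [f_add _ _ _ hj, f_mul, f_pow]

def fg (p : ℕ) : ℕ → ℕ → ℕ × ℕ
  | 0, _ => (0, 1)
  | n + 1, m => ((fg p n (m / p)).1 * (p * (p + 1) / 2) +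
      (fg p n (m / p)).2 * (m % p * (m % p + 1) / 2), (m % p + 1) * (fg p n (m / p)).2)

theorem fg_eq : ∀ n m, m < p ^ n → fg p n m = (fp p m, gp p m) := by
  have h0 := hp.out.pos
  intro n
  induction n with
  | zero => intro m h; have : m = 0 := by simpa using h
            simp [this, g0, fg, fp]
  | succ n ih =>
    intro m h
    have l := Nat.mod_lt m h0
    rw [fg, ih _ (Nat.div_lt_of_lt_mul (by rwa [pow_succ'] at h))]
    have a := f_split (p := p) (m / p) 1 (m % p) (by simpa using l.le)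
    have b := g_rec (m / p) (m % p) l
    rw [pow_one, pow_one, mul_comm, Nat.div_add_mod] at a
    rw [Nat.div_add_mod] at b
    rw [← f_small p le_rfl, ← f_small _ l.le, a, b]
    simp

theorem fpp : (fp p p : ℝ) = p * (p + 1) / 2 := by
  have : (2 * fp p p : ℝ) = p * (p + 1) := by exact_mod_cast f_small p le_rfl
  linarith

theorem p_theta : (p : ℝ) ^ theta p = fp p p := by
  have h1 : (1 : ℝ) < p := by exact_mod_cast hp.out.one_lt
  rw [fpp, Real.rpow_def_of_pos (by linarith), theta, mul_div_cancel₀ _ (Real.log_pos h1).ne',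
    Real.exp_log (by positivity)]

theorem pk_theta (k : ℕ) : ((p : ℝ) ^ k) ^ theta p = (fp p p : ℝ) ^ k := by
  rw [← p_theta, ← Real.rpow_natCast, ← Real.rpow_natCast, ← Real.rpow_mul (by positivity),
    ← Real.rpow_mul (by positivity), mul_comm]

def Inv (p : ℕ) (L : List (ℚ × ℚ)) : Prop := (∀ l ∈ L, l.1 ≤ 0) ∧
  ∀ r < p, ∀ y v : ℝ, 0 ≤ y → y ≤ 1 → (∀ l ∈ L, (l.1 : ℝ) + l.2 * y ≤ v) →
    ∀ l ∈ L, (p * (p + 1) / 2 : ℝ) * (l.1 + l.2 * ((r + y) / p)) ≤ r * (r + 1) / 2 + (r + 1) * v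

theorem lines {L : List (ℚ × ℚ)} (h : Inv p L) : ∀ k, ∀ j < p ^ k, ∀ l ∈ L,
    (l.1 : ℝ) + l.2 * (j / p ^ k) ≤ fp p j / (fp p p : ℝ) ^ k := by
  have h0 := hp.out.pos
  have h0' : (0 : ℝ) < p := by exact_mod_cast h0
  have hC : (0 : ℝ) < fp p p := by rw [fpp]; positivity
  intro k
  induction k with
  | zero =>
    intro j hj l hl
    have : j = 0 := by simpa using hj
    simpa [this, fp] using h.1 l hl
  | succ k ih =>
    intro j hj l hl
    have hk : 0 < p ^ k := by positivity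
    have l1 := Nat.mod_lt j hk
    have l2 : j / p ^ k < p := Nat.div_lt_of_lt_mul (by rwa [pow_succ] at hj)
    have a := f_split (p := p) (j / p ^ k) k _ l1.le
    rw [mul_comm, Nat.div_add_mod, g_small _ l2] at a
    have b : (2 * fp p (j / p ^ k) : ℝ) = (j / p ^ k : ℕ) * ((j / p ^ k : ℕ) + 1) := by
      exact_mod_cast f_small _ l2.le
    have c := h.2 _ l2 _ _ (by positivity) (div_le_one_of_le₀ (by exact_mod_cast l1.le)
      (by positivity)) (ih _ l1) l hl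
    have e : (j : ℝ) = p ^ k * (j / p ^ k : ℕ) + (j % p ^ k : ℕ) := by
      exact_mod_cast (Nat.div_add_mod j (p ^ k)).symm
    rw [← fpp] at c
    have e2 : (j : ℝ) / p ^ (k + 1) = ((j / p ^ k : ℕ) + (j % p ^ k : ℕ) / (p : ℝ) ^ k) / p := by
      conv_lhs => rw [e]
      field_simp; ring
    have e3 : (fp p j : ℝ) / (fp p p : ℝ) ^ (k + 1) = ((j / p ^ k : ℕ) * ((j / p ^ k : ℕ) + 1) / 2 +
        ((j / p ^ k : ℕ) + 1) * (fp p (j % p ^ k) / (fp p p : ℝ) ^ k)) / fp p p := by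
      rw [← b, a]; push_cast; field_simp; ring
    rw [e2, e3, le_div_iff₀' hC]
    exact c

structure Par where
  (As xs : ℚ) (c1 e1 c2 e2 : ℕ)

def Par.ok (P : Par) (p : ℕ) : Prop := 0 < P.As ∧ 0 < P.xs ∧ 0 < P.e1 ∧ 0 < P.e2 ∧ P.e1 ≤ P.c1 ∧
  p ^ P.c1 ≤ (p * (p + 1) / 2) ^ P.e1 ∧ (p * (p + 1) / 2) ^ P.e2 ≤ p ^ P.c2

instance (P : Par) (p : ℕ) : Decidable (P.ok p) := by unfold Par.ok; infer_instance

def chkPt (P : Par) (A x : ℚ) : Bool := 0 < A && 0 < x &&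
  if P.xs ≤ x then (x / P.xs) ^ P.c2 ≤ (A / P.As) ^ P.e2 else (x / P.xs) ^ P.c1 ≤ (A / P.As) ^ P.e1

theorem th_b {P : Par} (h : P.ok p) : (P.c1 : ℝ) ≤ theta p * P.e1 ∧ theta p * P.e2 ≤ P.c2 := by
  have h1 : (1 : ℝ) < p := by exact_mod_cast hp.out.one_lt
  have e : p * (p + 1) / 2 = fp p p := by rw [← f_small p le_rfl]; simp
  obtain ⟨-, -, -, -, -, a, b⟩ := h
  rw [e] at a b
  constructor <;> rw [← Real.rpow_le_rpow_left_iff h1, Real.rpow_mul (by positivity), p_theta,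
    Real.rpow_natCast, Real.rpow_natCast] <;> assumption_mod_cast

theorem th_one {P : Par} (h : P.ok p) : 1 ≤ theta p := by
  have := (th_b h).1
  have a : (0 : ℝ) < P.e1 := by exact_mod_cast h.2.2.1
  have b : (P.e1 : ℝ) ≤ P.c1 := by exact_mod_cast h.2.2.2.2.1
  nlinarith

theorem pt {P : Par} (h : P.ok p) {A x : ℚ} (c : chkPt P A x = true) :
    (P.As : ℝ) * ((x : ℝ) / P.xs) ^ theta p ≤ A := by
  obtain ⟨t1, t2⟩ := th_b h
  obtain ⟨a1, a2, a3, a4, -⟩ := h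
  simp only [chkPt, Bool.and_eq_true, decide_eq_true_eq] at c
  obtain ⟨⟨hA, hx⟩, c⟩ := c
  have b1 : (0 : ℝ) < P.As := by exact_mod_cast a1
  have b2 : (0 : ℝ) < P.xs := by exact_mod_cast a2
  have b3 : (0 : ℝ) < A := by exact_mod_cast hA
  have b4 : (0 : ℝ) < x := by exact_mod_cast hx
  rw [← le_div_iff₀' b1]
  split_ifs at c with d
  · have c' : ((x : ℝ) / P.xs) ^ P.c2 ≤ ((A : ℝ) / P.As) ^ P.e2 := by
      exact_mod_cast of_decide_eq_true c
    refine le_of_pow_le_pow_left₀ a4.ne' (by positivity) (le_trans ?_ c')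
    rw [← Real.rpow_natCast, ← Real.rpow_natCast, ← Real.rpow_mul (by positivity)]
    exact Real.rpow_le_rpow_of_exponent_le ((one_le_div b2).2 (by exact_mod_cast d)) t2
  · have c' : ((x : ℝ) / P.xs) ^ P.c1 ≤ ((A : ℝ) / P.As) ^ P.e1 := by
      exact_mod_cast of_decide_eq_true c
    refine le_of_pow_le_pow_left₀ a3.ne' (by positivity) (le_trans ?_ c')
    rw [← Real.rpow_natCast, ← Real.rpow_natCast, ← Real.rpow_mul (by positivity)]
    exact Real.rpow_le_rpow_of_exponent_ge (by positivity)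
      ((div_le_one b2).2 (by exact_mod_cast (not_le.1 d).le)) t1

omit hp in
theorem seg {θ s a b u v y α β : ℝ} (hθ : 1 ≤ θ) (hs : 0 ≤ s) (ha : 0 ≤ a + b * u)
    (ha' : 0 ≤ a + b * v) (hu : s * (a + b * u) ^ θ ≤ α + β * u)
    (hv : s * (a + b * v) ^ θ ≤ α + β * v) (h1 : u ≤ y) (h2 : y ≤ v) :
    s * (a + b * y) ^ θ ≤ α + β * y := by
  obtain ⟨x, z, hx, hz, e, rfl⟩ := (Convex.mem_Icc (h1.trans h2)).1 ⟨h1, h2⟩
  have := (convexOn_rpow hθ).2 ha ha' hx hz e
  simp only [smul_eq_mul] at this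
  have e' : a + b * (x * u + z * v) = x * (a + b * u) + z * (a + b * v) := by
    linear_combination (-a) * e
  rw [e']
  have k := mul_le_mul_of_nonneg_left this hs
  have k1 := mul_le_mul_of_nonneg_left hu hx
  have k2 := mul_le_mul_of_nonneg_left hv hz
  have e'' : α + β * (x * u + z * v) = x * (α + β * u) + z * (α + β * v) := by
    linear_combination (-α) * e
  rw [e'']; nlinarith

def chkSegs (P : Par) (L : List (ℚ × ℚ)) (f g m pd Cd : ℚ) : ℚ → List (ℚ × ℚ × ℚ) → Bool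
  | u, [] => 1 ≤ u
  | u, s :: t => (s.1, s.2.1) ∈ L && chkPt P ((f + g * (s.1 + s.2.1 * u)) / Cd) ((m + u) / pd) &&
      chkPt P ((f + g * (s.1 + s.2.1 * s.2.2)) / Cd) ((m + s.2.2) / pd) &&
      chkSegs P L f g m pd Cd s.2.2 t

theorem segs {P : Par} (h : P.ok p) {L : List (ℚ × ℚ)} {f g m pd Cd : ℚ} (hg : 0 ≤ g)
    (hC : 0 < Cd) (y v : ℝ) (hy : y < 1) (hl : ∀ l ∈ L, (l.1 : ℝ) + l.2 * y ≤ v) :
    ∀ (S : List (ℚ × ℚ × ℚ)) (u : ℚ), chkSegs P L f g m pd Cd u S = true → (u : ℝ) ≤ y →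
      (P.As : ℝ) * ((m + y) / pd / P.xs) ^ theta p ≤ (f + g * v) / Cd := by
  intro S
  induction S with
  | nil =>
    intro u c hu
    have : (1 : ℝ) ≤ u := by exact_mod_cast of_decide_eq_true c
    linarith
  | cons s t ih =>
    intro u c hu
    simp only [chkSegs, Bool.and_eq_true, decide_eq_true_eq] at c
    obtain ⟨⟨⟨c0, c1⟩, c2⟩, c3⟩ := c
    rcases le_total y s.2.2 with d | d
    swap
    · exact ih _ c3 d
    have a1 := pt h c1
    have a2 := pt h c2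
    simp only [chkPt, Bool.and_eq_true, decide_eq_true_eq] at c1 c2
    have b1 : (0 : ℝ) < (m + u) / pd := by exact_mod_cast c1.1.2
    have b2 : (0 : ℝ) < (m + s.2.2) / pd := by exact_mod_cast c2.1.2
    have b3 : (0 : ℝ) < P.xs := by exact_mod_cast h.2.1
    have b4 : (0 : ℝ) < P.As := by exact_mod_cast h.1
    have b5 : (0 : ℝ) < Cd := by exact_mod_cast hC
    have b6 : (0 : ℝ) ≤ g := by exact_mod_cast hg
    push_cast at a1 a2
    have E : ∀ w : ℝ, (m + w) / pd / P.xs = m / pd / P.xs + 1 / pd / P.xs * w := fun w => by ring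
    have E' : ∀ w : ℝ, (f + g * (s.1 + s.2.1 * w)) / Cd = (f + g * s.1) / Cd + g * s.2.1 / Cd * w :=
      fun w => by ring
    rw [E, E'] at a1 a2
    have := seg (th_one h) b4.le (by rw [← E]; positivity) (by rw [← E]; positivity) a1 a2 hu d
    rw [← E, ← E'] at this
    refine this.trans ?_
    have := hl _ c0
    gcongr

def chkAll (p : ℕ) (P : Par) (L : List (ℚ × ℚ)) (D : ℕ)
    (T : List (ℕ × ℕ × List (ℚ × ℚ × ℚ))) : Bool :=
  (T.all fun t => t.1 < p ^ 3 && t.2.1 ≤ D && chkSegs P L (fg p 3 t.1).1 (fg p 3 t.1).2 t.1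
    (p ^ t.2.1) ((p * (p + 1) / 2) ^ t.2.1) 0 t.2.2) &&
  (List.range (p ^ (D + 1))).all fun M => M < p ^ D || T.any fun t => M / p ^ (D - t.2.1) = t.1

theorem lower {P : Par} (h : P.ok p) {L : List (ℚ × ℚ)} (hL : Inv p L) {D : ℕ}
    {T : List (ℕ × ℕ × List (ℚ × ℚ × ℚ))} (c : chkAll p P L D T = true) (n : ℕ) (hn : p ^ D ≤ n) :
    (P.As : ℝ) * (P.xs : ℝ) ^ (-theta p) ≤ (fp p n : ℝ) * (n : ℝ) ^ (-theta p) := by
  have h1 := hp.out.one_lt
  have h0 : 0 < p := by omega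
  have h0' : (0 : ℝ) < p := by exact_mod_cast h0
  have hC : (0 : ℝ) < fp p p := by rw [fpp]; positivity
  have n0 : 0 < n := lt_of_lt_of_le (by positivity) hn
  simp only [chkAll, Bool.and_eq_true, List.all_eq_true, decide_eq_true_eq, Bool.or_eq_true,
    List.any_eq_true, List.mem_range] at c
  obtain ⟨k, hk⟩ := Nat.exists_eq_add_of_le (Nat.le_log_of_pow_le h1 hn)
  have a1 := Nat.pow_log_le_self p n0.ne'
  have a2 := Nat.lt_pow_succ_log_self h1 n
  rw [hk] at a1 a2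
  have m1 : n / p ^ k < p ^ (D + 1) := Nat.div_lt_of_lt_mul (by
    rw [← pow_add]; convert a2 using 2; omega)
  have m2 : p ^ D ≤ n / p ^ k := (Nat.le_div_iff_mul_le (by positivity)).2 (by rwa [← pow_add])
  obtain ⟨⟨m, d, S⟩, ht, e⟩ := (c.2 _ m1).resolve_left (by omega)
  obtain ⟨⟨b1, b2⟩, b3⟩ := c.1 _ ht
  simp only at e b1 b2 b3
  rw [Nat.div_div_eq_div_mul, ← pow_add] at e
  rw [fg_eq _ _ b1] at b3
  generalize k + (D - d) = i at e
  have l1 := Nat.mod_lt n (show 0 < p ^ i by positivity)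
  have s := segs h (by positivity) (by positivity) _ _ ((div_lt_one (by positivity)).2
    (by exact_mod_cast l1)) (lines hL i _ l1) S 0 b3 (by push_cast; positivity)
  have a := f_split (p := p) m i _ l1.le
  rw [← e, mul_comm, Nat.div_add_mod, e] at a
  have en : (n : ℝ) = p ^ i * m + (n % p ^ i : ℕ) := by
    rw [← e]; exact_mod_cast (Nat.div_add_mod n (p ^ i)).symm
  push_cast at s
  rw [← fpp] at s
  have b4 : (0 : ℝ) < P.xs := by exact_mod_cast h.2.1
  have e2 : ((m : ℝ) + (n % p ^ i : ℕ) / (p : ℝ) ^ i) / p ^ d / P.xs = n / (p ^ (i + d) * P.xs) := by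
    conv_rhs => rw [en]
    field_simp; ring
  have e3 : ((fp p m : ℝ) + gp p m * (fp p (n % p ^ i) / (fp p p : ℝ) ^ i)) / (fp p p : ℝ) ^ d =
      fp p n / (fp p p : ℝ) ^ (i + d) := by
    rw [a]; push_cast; field_simp; ring
  rw [e2, e3, Real.div_rpow (by positivity) (by positivity),
    Real.mul_rpow (by positivity) (by positivity), pk_theta] at s
  rw [Real.rpow_neg b4.le, Real.rpow_neg (by positivity), ← div_eq_mul_inv, ← div_eq_mul_inv,
    div_le_div_iff₀ (by positivity) (by positivity)]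
  rw [le_div_iff₀ (by positivity)] at s
  field_simp at s
  linarith

theorem half (r : ℕ) (hr : p = 2 * r + 1) (k : ℕ) :
    ∃ h, 2 * h + 1 = p ^ k ∧ 4 * fp p h ≤ fp p p ^ k := by
  induction k with
  | zero => exact ⟨0, rfl, by simp [fp]⟩
  | succ k ih =>
    obtain ⟨h, a, b⟩ := ih
    refine ⟨r * p ^ k + h, by rw [pow_succ]; nlinarith, ?_⟩
    rw [f_split _ _ _ (by omega), g_small r (by omega), pow_succ]
    have c := f_small (p := p) r (by omega)
    have d := f_small (p := p) p le_rfl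
    have e : fp p p = 4 * fp p r + (r + 1) := by nlinarith
    generalize fp p p ^ k = X at *
    rw [e]
    nlinarith

theorem main {P : Par} (h : P.ok p) {L : List (ℚ × ℚ)} (hL : Inv p L) {D : ℕ}
    {T : List (ℕ × ℕ × List (ℚ × ℚ × ℚ))} (c : chkAll p P L D T = true) (r : ℕ)
    (hr : p = 2 * r + 1) (m d : ℕ) (hm : m < p ^ 3) (m0 : 0 < m)
    (e1 : (m : ℚ) + 1 / 2 = p ^ d * P.xs)
    (e2 : ((fg p 3 m).1 : ℚ) + (fg p 3 m).2 / 4 = (p * (p + 1) / 2) ^ d * P.As) :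
    lam p = (P.As : ℝ) * (P.xs : ℝ) ^ (-theta p) := by
  have h1 : (1 : ℝ) < p := by exact_mod_cast hp.out.one_lt
  have hC : (0 : ℝ) < fp p p := by rw [fpp]; positivity
  have b4 : (0 : ℝ) < P.xs := by exact_mod_cast h.2.1
  have lo : ∀ᶠ n : ℕ in atTop, (P.As : ℝ) * (P.xs : ℝ) ^ (-theta p) ≤
      (fp p n : ℝ) * (n : ℝ) ^ (-theta p) := (eventually_ge_atTop _).mono (lower h hL c)
  choose hh a b using half r hr
  rw [fg_eq _ _ hm] at e2
  have e1' : (m : ℝ) + 1 / 2 = p ^ d * P.xs := by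
    have := congrArg (fun x : ℚ => (x : ℝ)) e1
    simpa using this
  have e2' : (fp p m : ℝ) + gp p m / 4 = (fp p p : ℝ) ^ d * P.As := by
    have := congrArg (fun x : ℚ => (x : ℝ)) e2
    rw [fpp]; simpa using this
  have t1 : Tendsto (fun k => m * p ^ k + hh k) atTop atTop :=
    tendsto_atTop_mono (fun k => by nlinarith [Nat.zero_le (hh k), Nat.zero_le (p ^ k)])
      (tendsto_pow_atTop_atTop_of_one_lt hp.out.one_lt)
  have t2 : Tendsto (fun k : ℕ => (m : ℝ) + 1 / 2 - 1 / 2 * ((p : ℝ)⁻¹) ^ k) atTop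
      (𝓝 ((m : ℝ) + 1 / 2 - 1 / 2 * 0)) := tendsto_const_nhds.sub
    ((tendsto_pow_atTop_nhds_zero_of_lt_one (by positivity) (inv_lt_one_of_one_lt₀ h1)).const_mul _)
  have t3 := (t2.rpow_const (p := -theta p) (Or.inl (by rw [mul_zero, sub_zero]; positivity))).const_mul
    ((fp p m : ℝ) + gp p m / 4)
  have e4 : ((fp p m : ℝ) + gp p m / 4) * ((m : ℝ) + 1 / 2 - 1 / 2 * 0) ^ (-theta p) =
      (P.As : ℝ) * (P.xs : ℝ) ^ (-theta p) := by
    rw [mul_zero, sub_zero, e1', e2', Real.mul_rpow (by positivity) b4.le,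
      Real.rpow_neg (by positivity), pk_theta]
    field_simp
  rw [e4] at t3
  have up : ∀ ε > 0, ∃ᶠ n : ℕ in atTop, (fp p n : ℝ) * (n : ℝ) ^ (-theta p) ≤
      (P.As : ℝ) * (P.xs : ℝ) ^ (-theta p) + ε := by
    intro ε hε
    refine t1.frequently ((t3.eventually (ge_mem_nhds (lt_add_of_pos_right _ hε))).mono
      fun k hk => le_trans ?_ hk).frequently
    have a' : (2 * hh k + 1 : ℝ) = p ^ k := by exact_mod_cast a k
    have b' : (4 * fp p (hh k) : ℝ) ≤ (fp p p : ℝ) ^ k := by exact_mod_cast b k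
    have e5 : ((m * p ^ k + hh k : ℕ) : ℝ) = p ^ k * (m + 1 / 2 - 1 / 2 * ((p : ℝ)⁻¹) ^ k) := by
      push_cast; rw [inv_pow]; field_simp; linarith
    have p5 : (0 : ℝ) ≤ m + 1 / 2 - 1 / 2 * ((p : ℝ)⁻¹) ^ k := by
      have := pow_le_one₀ (n := k) (by positivity) (inv_lt_one_of_one_lt₀ h1).le
      have : (0 : ℝ) ≤ m := by positivity
      linarith
    rw [e5, Real.mul_rpow (by positivity) p5, ← mul_assoc, Real.rpow_neg (by positivity), pk_theta,
      f_split _ _ _ (by have := a k; omega)]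
    gcongr
    push_cast
    rw [← div_eq_mul_inv, div_le_iff₀ (by positivity)]
    have : (0 : ℝ) ≤ gp p m := by positivity
    nlinarith
  refine le_antisymm (le_of_forall_pos_le_add fun ε hε =>
    liminf_le_of_frequently_le (up ε hε) (isBoundedUnder_of_eventually_ge lo))
    (le_liminf_of_le (IsCoboundedUnder.of_frequently_le (up 1 one_pos)) lo)

theorem inv5 : Inv 5 [(0, 0), (-3 / 20, 4 / 5), (-1 / 4, 1), (-17 / 20, 7 / 4), (-13 / 100, 3 / 4)] := by
  refine ⟨by simp; norm_num, fun r hr y v h0 h1 h => ?_⟩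
  simp only [List.mem_cons, List.not_mem_nil, or_false, forall_eq_or_imp, forall_eq] at h ⊢
  push_cast at h ⊢
  obtain ⟨a0, a1, a2, a3, a4⟩ := h
  interval_cases r <;> push_cast <;> refine ⟨?_, ?_, ?_, ?_, ?_⟩ <;> linarith

theorem lam5 : lam 5 = (3 / 2 : ℝ) * (3 / 2 : ℝ) ^ (-theta 5) := by
  have : Fact (Nat.Prime 5) := ⟨by norm_num⟩
  have := main (p := 5) (P := ⟨3 / 2, 3 / 2, 5, 3, 17, 10⟩) (by decide +kernel) inv5
    (D := 0) (T := [(1, 0, [(0, 0, 13 / 75), (-13 / 100, 3 / 4, 2 / 5), (-3 / 20, 4 / 5, 1 / 2), (-1 / 4, 1, 1)]),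
    (2, 0, [(-3 / 20, 4 / 5, 1)]),
    (3, 0, [(-3 / 20, 4 / 5, 1)]),
    (4, 0, [(-3 / 20, 4 / 5, 1)])]) (by decide +kernel) 2 rfl 1 0 (by norm_num) (by norm_num)
    (by norm_num) (by decide +kernel)
  simpa using this

theorem inv7 : Inv 7 [(0, 0), (-1 / 6, 5 / 6), (-1 / 4, 1), (-41 / 100, 5 / 4)] := by
  refine ⟨by simp; norm_num, fun r hr y v h0 h1 h => ?_⟩
  simp only [List.mem_cons, List.not_mem_nil, or_false, forall_eq_or_imp, forall_eq] at h ⊢
  push_cast at h ⊢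
  obtain ⟨a0, a1, a2, a3⟩ := h
  interval_cases r <;> push_cast <;> refine ⟨?_, ?_, ?_, ?_⟩ <;> linarith

theorem lam7 : lam 7 = (3 / 2 : ℝ) * (3 / 2 : ℝ) ^ (-theta 7) := by
  have : Fact (Nat.Prime 7) := ⟨by norm_num⟩
  have := main (p := 7) (P := ⟨3 / 2, 3 / 2, 17, 10, 12, 7⟩) (by decide +kernel) inv7
    (D := 1) (T := [(7, 1, [(0, 0, 1)]),
    (8, 1, [(-1 / 6, 5 / 6, 1)]),
    (9, 1, [(-1 / 4, 1, 16 / 25), (-41 / 100, 5 / 4, 1)]),
    (10, 1, [(-1 / 6, 5 / 6, 1 / 2), (-1 / 4, 1, 1)]),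
    (11, 1, [(-1 / 6, 5 / 6, 1)]),
    (12, 1, [(-1 / 6, 5 / 6, 1)]),
    (13, 1, [(0, 0, 1)]),
    (2, 0, [(-1 / 6, 5 / 6, 1)]),
    (3, 0, [(-1 / 6, 5 / 6, 1)]),
    (4, 0, [(-1 / 6, 5 / 6, 1)]),
    (5, 0, [(-1 / 6, 5 / 6, 1)]),
    (6, 0, [(-1 / 6, 5 / 6, 1)])]) (by decide +kernel) 3 rfl 1 0 (by norm_num) (by norm_num)
    (by norm_num) (by decide +kernel)
  simpa using this

theorem inv11 : Inv 11 [(0, 0), (-1 / 5, 9 / 10), (-1 / 4, 1), (-2 / 5, 5 / 4)] := by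
  refine ⟨by simp; norm_num, fun r hr y v h0 h1 h => ?_⟩
  simp only [List.mem_cons, List.not_mem_nil, or_false, forall_eq_or_imp, forall_eq] at h ⊢
  push_cast at h ⊢
  obtain ⟨a0, a1, a2, a3⟩ := h
  interval_cases r <;> push_cast <;> refine ⟨?_, ?_, ?_, ?_⟩ <;> linarith

theorem lam11 : lam 11 = (59 / 44 : ℝ) * (31 / 22 : ℝ) ^ (-theta 11) := by
  have : Fact (Nat.Prime 11) := ⟨by norm_num⟩
  have := main (p := 11) (P := ⟨59 / 44, 31 / 22, 26, 15, 7, 4⟩) (by decide +kernel) inv11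
    (D := 2) (T := [(11, 1, [(0, 0, 1)]),
    (12, 1, [(0, 0, 1)]),
    (13, 1, [(-1 / 5, 9 / 10, 1)]),
    (14, 1, [(-1 / 4, 1, 1)]),
    (165, 2, [(0, 0, 1)]),
    (166, 2, [(0, 0, 1)]),
    (167, 2, [(0, 0, 1)]),
    (168, 2, [(-1 / 5, 9 / 10, 1)]),
    (169, 2, [(-1 / 4, 1, 1)]),
    (170, 2, [(-1 / 5, 9 / 10, 1 / 2), (-1 / 4, 1, 4 / 5), (-2 / 5, 5 / 4, 1)]),
    (171, 2, [(-1 / 5, 9 / 10, 1)]),
    (172, 2, [(-1 / 5, 9 / 10, 1)]),
    (173, 2, [(-1 / 5, 9 / 10, 1)]),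
    (174, 2, [(0, 0, 1)]),
    (175, 2, [(0, 0, 1)]),
    (16, 1, [(-1 / 5, 9 / 10, 1)]),
    (17, 1, [(-1 / 5, 9 / 10, 1)]),
    (18, 1, [(-1 / 5, 9 / 10, 1)]),
    (19, 1, [(-1 / 5, 9 / 10, 1)]),
    (20, 1, [(0, 0, 1)]),
    (21, 1, [(0, 0, 1)]),
    (2, 0, [(0, 0, 2 / 9), (-1 / 5, 9 / 10, 1)]),
    (3, 0, [(-1 / 5, 9 / 10, 1)]),
    (4, 0, [(-1 / 5, 9 / 10, 1)]),
    (5, 0, [(-1 / 5, 9 / 10, 1)]),
    (6, 0, [(-1 / 5, 9 / 10, 1)]),
    (7, 0, [(-1 / 5, 9 / 10, 1)]),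
    (8, 0, [(0, 0, 1)]),
    (9, 0, [(0, 0, 1)]),
    (10, 0, [(0, 0, 1)])]) (by decide +kernel) 5 rfl 15 1 (by norm_num) (by norm_num)
    (by norm_num) (by decide +kernel)
  simpa using this

theorem result : lam 5 = (3 / 2 : ℝ) ^ (1 - theta 5) ∧ lam 7 = (3 / 2 : ℝ) ^ (1 - theta 7) ∧
    lam 11 = (59 / 44 : ℝ) * (22 / 31 : ℝ) ^ theta 11 := by
  refine ⟨?_, ?_, ?_⟩
  · rw [lam5, sub_eq_add_neg, Real.rpow_add (by norm_num), Real.rpow_one]
  · rw [lam7, sub_eq_add_neg, Real.rpow_add (by norm_num), Real.rpow_one]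
  · rw [lam11, Real.rpow_neg (by norm_num), ← Real.inv_rpow (by norm_num)]
    norm_num

end Pool.Agent.Results.MP_165cab_nt.Three
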